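import Pool.Agent.Helper4.P11.StD

/-!
# Project P11, module RLL: the relation as operators

Model: `Pool/Agent/Helper8/T7/M_Rll.lean`.
-/

set_option autoImplicit false

namespace Pool.Agent.Helper16.P11

open Pool.Agent.Helper4.P11 Pool.Agent.Helper84.P11
open Pool.Agent.Helper2.P11 (Df11 Rel11)

private lemma tr_one {q q' : ℕ} (F : Fn11 q q') : tr11 1 0 0 1 F = F := by
  funext x y
  unfold tr11
  simp

/-- RLL: the relation as operators. -/
theorem hRll : TRll := by
  intro r s F hF
  have hop : ∀ (a b c d : ℤ) (G : Fn11 (11 ^ r) (11 ^ s)) (x : ZMod (11 ^ r)) (y : ZMod (11 ^ s)),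
      op11 a b c d G x y = tr11 a b c d G x y := fun _ _ _ _ _ _ _ => rfl
  funext x y
  have g := hF x y
  unfold Df11 at g
  rw [Fin.sum_univ_three]
  simp [relM, opL, hop, tr_one]
  linear_combination g

end Pool.Agent.Helper16.P11
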