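import Pool.Agent.Helper4.P11.StD
import Pool.Agent.Helper84.P11.M_Unb

/-!
# Project P11, module UNB: back to level (0, n) and to complex values

Model: `Pool/Agent/Helper80/T7/M_Unb.lean`.
-/

set_option autoImplicit false

namespace Pool.Agent.Helper16.P11

open Pool.Agent.Helper4.P11 Pool.Agent.Helper84.P11
open Pool.Agent.Helper14.CV (Homog EqC act Tl)
open Pool.Agent.Helper28.WK (SymP Tw evw Ok)

private lemma ub_zero (r : ℕ) : ub r 0 = 0 := by
  funext p q
  simp only [ub, Pi.zero_apply, Int.cast_zero]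

private lemma ub_add (r : ℕ) (G H : ℤ → ℤ → ℤ) : ub r (G + H) = ub r G + ub r H := by
  funext p q
  simp only [ub, Pi.add_apply, Int.cast_add]

private lemma ub_smul (r : ℕ) (n : ℤ) (G : ℤ → ℤ → ℤ) : ub r (n • G) = n • ub r G := by
  funext p q
  simp only [ub, Pi.smul_apply, zsmul_eq_mul, smul_eq_mul, Int.cast_mul]

private lemma Tw_ub (r : ℕ) (G : ℤ → ℤ → ℤ) (ls : List ℕ) :
    Tw 1 ls (ub r G) = ub r (Tw (11 ^ r) ls G) := by
  induction ls with
  | nil => rfl
  | cons l ls ih =>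
    change Tl l 1 (Tw 1 ls (ub r G)) = ub r (Tl l (11 ^ r) (Tw (11 ^ r) ls G))
    rw [ih, (Pool.Agent.Helper84.P11.hUnb r (Tw (11 ^ r) ls G)).1 l]

private lemma cO_nil {R : Type} [AddCommGroup R] (m : ℤ) (G : ℤ → ℤ → R) : cO [] m G = 0 := rfl

private lemma cO_cons {R : Type} [AddCommGroup R] (t : ℤ × List ℕ) (W : List (ℤ × List ℕ)) (m : ℤ)
    (G : ℤ → ℤ → R) : cO (t :: W) m G = t.1 • Tw m t.2 G + cO W m G := by
  unfold cO
  rw [List.map_cons, List.sum_cons]

private lemma cO_ub (r : ℕ) (W : List (ℤ × List ℕ)) (G : ℤ → ℤ → ℤ) :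
    cO W 1 (ub r G) = ub r (cO W (11 ^ r) G) := by
  induction W with
  | nil => rw [cO_nil, cO_nil, ub_zero]
  | cons t W ih => rw [cO_cons, cO_cons, ih, ub_add, ub_smul, Tw_ub]

private lemma homog_Tl {G : ℤ → ℤ → ℤ} (l : ℕ) (hl : 0 < l) (m : ℤ) (h : Homog G) :
    Homog (Tl l m G) := by
  intro k p q hk hpq
  have hl0 : (l : ℤ) ≠ 0 := by exact_mod_cast hl.ne'
  simp only [Tl]
  congr 1
  · have e := h k (l * p) q hk (by
      rcases hpq with h0 | h0
      · exact Or.inl (mul_ne_zero hl0 h0)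
      · exact Or.inr h0)
    rw [← e]
    congr 1
    ring
  · refine Finset.sum_congr rfl ?_
    intro j _
    have e := h k (p + m * j * q) (l * q) hk (by
      by_cases hq : q = 0
      · left
        rcases hpq with h0 | h0
        · rw [hq, mul_zero, add_zero]
          exact h0
        · exact absurd hq h0
      · exact Or.inr (mul_ne_zero hl0 hq))
    rw [← e]
    congr 1
    · ring
    · ring

private lemma homog_Tw {G : ℤ → ℤ → ℤ} (m : ℤ) (h : Homog G) (ls : List ℕ)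
    (hls : ∀ l ∈ ls, 0 < l) : Homog (Tw m ls G) := by
  induction ls with
  | nil => exact h
  | cons l ls ih =>
    change Homog (Tl l m (Tw m ls G))
    exact homog_Tl l (hls l List.mem_cons_self) m
      (ih fun l' hl' => hls l' (List.mem_cons_of_mem _ hl'))

private lemma homog_cO {G : ℤ → ℤ → ℤ} (m : ℤ) (h : Homog G) (W : List (ℤ × List ℕ))
    (hW : ∀ t ∈ W, ∀ l ∈ t.2, 0 < l) : Homog (cO W m G) := by
  induction W with
  | nil =>
    rw [cO_nil]
    exact fun _ _ _ _ _ => rfl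
  | cons t W ih =>
    rw [cO_cons]
    exact Homog.add (Homog.smul _ (homog_Tw m h t.2 (hW t List.mem_cons_self)))
      (ih fun t' ht' => hW t' (List.mem_cons_of_mem _ ht'))

private lemma posU : ∀ t ∈ UW, ∀ l ∈ t.2, 0 < l := by decide

private lemma posV : ∀ t ∈ VW, ∀ l ∈ t.2, 0 < l := by decide

private lemma posO : ∀ c : ℕ, ∀ t ∈ OW c, ∀ l ∈ t.2, 0 < l
  | 0 => by decide
  | 1 => by decide
  | 2 => by decide
  | 3 => by decide
  | 4 => by decide
  | 5 => by decide
  | 6 => by decide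
  | 7 => by decide
  | 8 => by decide
  | (_ + 9) => by
    change ∀ t ∈ OW 9, ∀ l ∈ t.2, 0 < l
    decide

private lemma iter_ub {O : (ℤ → ℤ → ℂ) → (ℤ → ℤ → ℂ)} {P : (ℤ → ℤ → ℤ) → (ℤ → ℤ → ℤ)} (r : ℕ)
    (h : ∀ G, O (ub r G) = ub r (P G)) (G : ℤ → ℤ → ℤ) (i : ℕ) :
    O^[i] (ub r G) = ub r (P^[i] G) := by
  induction i with
  | zero => rfl
  | succ i ih => rw [Function.iterate_succ_apply', Function.iterate_succ_apply', ih, h]

private lemma iter_homog {P : (ℤ → ℤ → ℤ) → (ℤ → ℤ → ℤ)} (hP : ∀ G, Homog G → Homog (P G))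
    {G : ℤ → ℤ → ℤ} (h : Homog G) (i : ℕ) : Homog (P^[i] G) := by
  induction i with
  | zero => exact h
  | succ i ih =>
    rw [Function.iterate_succ_apply']
    exact hP _ ih

/-- **Module UNB.** -/
theorem hUnb : TUnb := by
  intro r s G hG
  refine ⟨((Pool.Agent.Helper84.P11.hUnb r G).2 s hG).1, ?_⟩
  intro c i j
  change evM 1 (ub r G) c i j = _
  unfold evM
  rw [iter_ub r (cO_ub r VW), iter_ub r (cO_ub r UW), cO_ub r (OW c)]
  have hH : Homog (cO (OW c) (11 ^ r) ((cO UW (11 ^ r))^[i] ((cO VW (11 ^ r))^[j] G))) :=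
    homog_cO _ (iter_homog (fun G h => homog_cO _ h UW posU)
      (iter_homog (fun G h => homog_cO _ h VW posV) hG.1 j) i) (OW c) (posO c)
  have e := hH (11 ^ r) 1 0 (by positivity) (Or.inl one_ne_zero)
  rw [mul_zero] at e
  simp only [ub]
  rw [mul_zero, e, Int.cast_sub]

end Pool.Agent.Helper16.P11
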